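import Pool.Agent.W661.RC.Stm2

/-!
# Project RC, task PTA: a uniform Kazhdan constant
-/

set_option autoImplicit false

namespace W440.RC

open Pool.Agent.W661.RC

noncomputable section

theorem norm_uni {H : Type} [NormedAddCommGroup H] [InnerProductSpace ℂ H] [CompleteSpace H]
    (u : unitary (H →L[ℂ] H)) (v : H) : ‖(u : H →L[ℂ] H) v‖ = ‖v‖ :=
  ContinuousLinearMap.norm_map_of_mem_unitary u.2 v

section Sum

variable {E : ℕ → Type} [∀ i, NormedAddCommGroup (E i)] [∀ i, InnerProductSpace ℂ (E i)]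
  [∀ i, CompleteSpace (E i)]

theorem two_pos' : 0 < (2 : ENNReal).toReal := by norm_num

theorem mem_uni (u : ∀ i, unitary (E i →L[ℂ] E i)) (f : lp E 2) :
    Memℓp (fun i => (u i : E i →L[ℂ] E i) (f i)) 2 := by
  refine memℓp_gen ?_
  have := (lp.memℓp f).summable two_pos'
  refine this.congr fun i => ?_
  rw [norm_uni]

/-- the direct sum of unitary operators -/
def Ti (u : ∀ i, unitary (E i →L[ℂ] E i)) : lp E 2 →ₗᵢ[ℂ] lp E 2 where
  toFun f := ⟨fun i => (u i : E i →L[ℂ] E i) (f i), mem_uni u f⟩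
  map_add' f g := by
    ext i
    simp [lp.coeFn_add]
  map_smul' c f := by
    ext i
    simp [lp.coeFn_smul]
  norm_map' f := by
    rw [lp.norm_eq_tsum_rpow two_pos', lp.norm_eq_tsum_rpow two_pos']
    congr 1
    refine tsum_congr fun i => ?_
    show ‖(u i : E i →L[ℂ] E i) (f i)‖ ^ _ = _
    rw [norm_uni]

/-- the direct sum of unitary operators -/
def T (u : ∀ i, unitary (E i →L[ℂ] E i)) : lp E 2 →L[ℂ] lp E 2 := (Ti u).toContinuousLinearMap

theorem T_apply (u : ∀ i, unitary (E i →L[ℂ] E i)) (f : lp E 2) (i : ℕ) :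
    (T u f) i = (u i : E i →L[ℂ] E i) (f i) := rfl

theorem T_one : T (fun i => (1 : unitary (E i →L[ℂ] E i))) = 1 := by
  ext f i
  rfl

theorem T_mul (u v : ∀ i, unitary (E i →L[ℂ] E i)) :
    T (fun i => u i * v i) = T u * T v := by
  ext f i
  rfl

theorem T_star (u : ∀ i, unitary (E i →L[ℂ] E i)) :
    star (T u) = T (fun i => star (u i)) := by
  rw [ContinuousLinearMap.star_eq_adjoint]
  symm
  rw [ContinuousLinearMap.eq_adjoint_iff]
  intro x y
  rw [lp.inner_eq_tsum, lp.inner_eq_tsum]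
  refine tsum_congr fun i => ?_
  rw [T_apply, T_apply]
  show inner ℂ ((star (u i : E i →L[ℂ] E i)) (x i)) (y i) = _
  rw [ContinuousLinearMap.star_eq_adjoint, ContinuousLinearMap.adjoint_inner_left]

/-- the direct sum of unitary operators, as a unitary operator -/
def TU (u : ∀ i, unitary (E i →L[ℂ] E i)) : unitary (lp E 2 →L[ℂ] lp E 2) :=
  ⟨T u, by
    rw [Unitary.mem_iff, T_star, ← T_mul, ← T_mul]
    constructor
    · simp only [Unitary.star_mul_self]
      exact T_one
    · simp only [Unitary.mul_star_self]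
      exact T_one⟩

end Sum

/-- a representation without invariant vectors and an almost invariant vector -/
structure Bad (G : Type) [Group G] (k : ℕ) (γ : FreeGroup (Fin k) →* G) (c : ℝ) where
  H : Type
  i1 : NormedAddCommGroup H
  i2 : InnerProductSpace ℂ H
  i3 : CompleteSpace H
  π : G →* unitary (H →L[ℂ] H)
  noinv : ∀ v : H, (∀ g : G, (π g : H →L[ℂ] H) v = v) → v = 0
  ξ : H
  nrm : ‖ξ‖ = 1
  small : ∑ s, ‖(π (γ (FreeGroup.of s)) : H →L[ℂ] H) ξ - ξ‖ ^ 2 < c

attribute [instance] Bad.i1 Bad.i2 Bad.i3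

theorem main : PtaP := by
  intro G _ k γ hT hγ
  by_contra hcon
  push Not at hcon
  have hne : ∀ n : ℕ, Nonempty (Bad G k γ (1 / ((n : ℝ) + 1))) := by
    intro n
    obtain ⟨H, i1, i2, i3, π, hni, ξ, hξ⟩ := hcon (1 / ((n : ℝ) + 1)) (by positivity)
    have hξ0 : ξ ≠ 0 := by
      rintro rfl
      simp at hξ
    have hn0 : 0 < ‖ξ‖ := norm_pos_iff.2 hξ0
    refine ⟨⟨H, i1, i2, i3, π, hni, ((‖ξ‖⁻¹ : ℝ) : ℂ) • ξ, ?_, ?_⟩⟩
    · rw [norm_smul, Complex.norm_real, Real.norm_eq_abs, abs_of_pos (inv_pos.2 hn0)]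
      field_simp
    · have h1 : ∀ s, ‖(π (γ (FreeGroup.of s)) : H →L[ℂ] H) (((‖ξ‖⁻¹ : ℝ) : ℂ) • ξ) -
          ((‖ξ‖⁻¹ : ℝ) : ℂ) • ξ‖ ^ 2 =
          (‖ξ‖⁻¹) ^ 2 * ‖(π (γ (FreeGroup.of s)) : H →L[ℂ] H) ξ - ξ‖ ^ 2 := by
        intro s
        rw [map_smul, ← smul_sub, norm_smul, Complex.norm_real, Real.norm_eq_abs,
          abs_of_pos (inv_pos.2 hn0), mul_pow]
      simp_rw [h1]
      rw [← Finset.mul_sum]
      calc (‖ξ‖⁻¹) ^ 2 * ∑ s, ‖(π (γ (FreeGroup.of s)) : H →L[ℂ] H) ξ - ξ‖ ^ 2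
          < (‖ξ‖⁻¹) ^ 2 * (1 / ((n : ℝ) + 1) * ‖ξ‖ ^ 2) := by
            exact mul_lt_mul_of_pos_left hξ (by positivity)
        _ = 1 / ((n : ℝ) + 1) := by
            field_simp
  obtain ⟨B, -⟩ : ∃ _ : ∀ n : ℕ, Bad G k γ (1 / ((n : ℝ) + 1)), True :=
    ⟨fun n => Classical.choice (hne n), trivial⟩
  let E : ℕ → Type := fun n => (B n).H
  let ρ : G →* unitary (lp E 2 →L[ℂ] lp E 2) :=
    { toFun := fun g => TU (fun n => (B n).π g)
      map_one' := by
        apply Subtype.ext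
        show T (fun n => (B n).π 1) = 1
        simp only [map_one]
        exact T_one
      map_mul' := by
        intro a b
        apply Subtype.ext
        show T (fun n => (B n).π (a * b)) = T (fun n => (B n).π a) * T (fun n => (B n).π b)
        simp only [map_mul]
        exact T_mul _ _ }
  have hρ : ∀ (g : G) (f : lp E 2) (n : ℕ),
      ((ρ g : lp E 2 →L[ℂ] lp E 2) f) n = ((B n).π g : (B n).H →L[ℂ] (B n).H) (f n) := by
    intro g f n
    rfl
  -- word estimate
  have hword : ∀ w : FreeGroup (Fin k), ∃ L : ℝ, 0 ≤ L ∧ ∀ n : ℕ,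
      ‖((B n).π (γ w) : (B n).H →L[ℂ] (B n).H) (B n).ξ - (B n).ξ‖ ≤ L * √(1 / ((n : ℝ) + 1)) := by
    intro w
    induction w using FreeGroup.induction_on with
    | C1 =>
      refine ⟨0, le_refl _, fun n => ?_⟩
      simp
    | of s =>
      refine ⟨1, zero_le_one, fun n => ?_⟩
      rw [one_mul]
      apply Real.le_sqrt_of_sq_le
      refine le_trans ?_ (B n).small.le
      exact Finset.single_le_sum (f := fun s => ‖((B n).π (γ (FreeGroup.of s)) :
        (B n).H →L[ℂ] (B n).H) (B n).ξ - (B n).ξ‖ ^ 2) (fun _ _ => by positivity)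
        (Finset.mem_univ s)
    | inv_of s ih =>
      obtain ⟨L, hL, h⟩ := ih
      refine ⟨L, hL, fun n => ?_⟩
      refine le_trans (le_of_eq ?_) (h n)
      have h1 : ((B n).ξ : (B n).H) - ((B n).π (γ (FreeGroup.of s)) : (B n).H →L[ℂ] (B n).H)
          (B n).ξ = ((B n).π (γ (FreeGroup.of s)) : (B n).H →L[ℂ] (B n).H)
          (((B n).π (γ (FreeGroup.of s)⁻¹) : (B n).H →L[ℂ] (B n).H) (B n).ξ - (B n).ξ) := by
        rw [map_sub]
        congr 1
        rw [← ContinuousLinearMap.mul_apply]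
        have : ((B n).π (γ (FreeGroup.of s)) : (B n).H →L[ℂ] (B n).H) *
            ((B n).π (γ (FreeGroup.of s)⁻¹) : (B n).H →L[ℂ] (B n).H) = 1 := by
          have h2 : (B n).π (γ (FreeGroup.of s)) * (B n).π (γ (FreeGroup.of s)⁻¹) = 1 := by
            rw [← map_mul, ← map_mul, mul_inv_cancel, map_one, map_one]
          exact congrArg Subtype.val h2
        rw [this]
        rfl
      rw [norm_sub_rev ((((B n).π (γ (FreeGroup.of s)) : (B n).H →L[ℂ] (B n).H)) (B n).ξ), h1,
        norm_uni]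
    | mul x y hx hy =>
      obtain ⟨L, hL, h⟩ := hx
      obtain ⟨L', hL', h'⟩ := hy
      refine ⟨L + L', by positivity, fun n => ?_⟩
      have h1 : ((B n).π (γ (x * y)) : (B n).H →L[ℂ] (B n).H) (B n).ξ =
          ((B n).π (γ x) : (B n).H →L[ℂ] (B n).H)
            (((B n).π (γ y) : (B n).H →L[ℂ] (B n).H) (B n).ξ) := by
        rw [map_mul, map_mul]
        rfl
      have h2 : ((B n).π (γ (x * y)) : (B n).H →L[ℂ] (B n).H) (B n).ξ - (B n).ξ =
          ((B n).π (γ x) : (B n).H →L[ℂ] (B n).H)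
            (((B n).π (γ y) : (B n).H →L[ℂ] (B n).H) (B n).ξ - (B n).ξ) +
          (((B n).π (γ x) : (B n).H →L[ℂ] (B n).H) (B n).ξ - (B n).ξ) := by
        rw [h1, map_sub]
        abel
      rw [h2, add_comm L L', add_mul]
      refine (norm_add_le _ _).trans (add_le_add ?_ (h n))
      rw [norm_uni]
      exact h' n
  obtain ⟨v, hv0, hv⟩ := hT (lp E 2) ρ (by
    intro K ε hε
    choose wd hwd using hγ
    choose Lw hL0 hLw using hword
    set S : ℝ := ∑ g ∈ K, Lw (wd g) with hS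
    have hS0 : 0 ≤ S := Finset.sum_nonneg fun g _ => hL0 _
    obtain ⟨n, hn⟩ : ∃ n : ℕ, S * √(1 / ((n : ℝ) + 1)) < ε := by
      have h1 : Filter.Tendsto (fun n : ℕ => S * √(1 / ((n : ℝ) + 1))) Filter.atTop
          (nhds (S * √0)) := by
        refine Filter.Tendsto.const_mul _ ?_
        exact (Real.continuous_sqrt.tendsto 0).comp tendsto_one_div_add_atTop_nhds_zero_nat
      rw [Real.sqrt_zero, mul_zero] at h1
      exact (h1.eventually (gt_mem_nhds hε)).exists
    refine ⟨lp.single 2 n (B n).ξ, ?_, ?_⟩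
    · rw [lp.norm_single (by norm_num)]
      exact (B n).nrm
    · intro g hg
      have h1 : (ρ g : lp E 2 →L[ℂ] lp E 2) (lp.single 2 n (B n).ξ) - lp.single 2 n (B n).ξ =
          lp.single 2 n (((B n).π g : (B n).H →L[ℂ] (B n).H) (B n).ξ - (B n).ξ) := by
        ext m
        rw [lp.coeFn_sub, Pi.sub_apply, hρ]
        by_cases hm : m = n
        · subst hm
          rw [lp.single_apply_self, lp.single_apply_self]
        · rw [lp.single_apply_ne _ _ _ hm, lp.single_apply_ne _ _ _ hm, map_zero, sub_zero]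
      rw [h1, lp.norm_single (by norm_num)]
      refine lt_of_le_of_lt ?_ hn
      have h2 := hLw (wd g) n
      rw [hwd] at h2
      refine h2.trans ?_
      refine mul_le_mul_of_nonneg_right ?_ (Real.sqrt_nonneg _)
      exact Finset.single_le_sum (f := fun g => Lw (wd g)) (fun g _ => hL0 _) hg)
  apply hv0
  ext n
  have h1 : v n = 0 := by
    apply (B n).noinv
    intro g
    have h2 := congrArg (fun f : lp E 2 => f n) (hv g)
    simp only [hρ] at h2
    exact h2
  rw [h1]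
  rfl

end

end W440.RC
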